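import Mathlib

/-!
# Layerings of finite posets (cocomparability graphs)

`L` is a strict partial order on the finite set `W`; the graph in question is the incomparability
graph. A layering `h` with `k` layers: the set `Z W h` (value `0`) is removed and the other elements
of `W` lie in the layers `1, …, k`, all elements of a layer being below all elements of the higher
layers. (`k ≤` the number of components of the incomparability graph minus `Z W h`.)
-/

set_option autoImplicit false

namespace Pool.Agent.L7h35.CC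

variable {V : Type}

/-- `L` is a strict partial order on `W` -/
structure PO (L : V → V → Prop) (W : Finset V) : Prop where
  irr : ∀ a ∈ W, ¬ L a a
  tr : ∀ a ∈ W, ∀ b ∈ W, ∀ c ∈ W, L a b → L b c → L a c

/-- `h` is a layering of `W` with `k` layers -/
structure Lay (L : V → V → Prop) (W : Finset V) (h : V → ℕ) (k : ℕ) : Prop where
  le : ∀ v ∈ W, h v ≤ k
  ne : ∀ i, 1 ≤ i → i ≤ k → ∃ v ∈ W, h v = i
  lt : ∀ u ∈ W, ∀ v ∈ W, 0 < h u → h u < h v → L u v

/-- the removed set of a layering -/
def Z (W : Finset V) (h : V → ℕ) : Finset V := W.filter fun v => h v = 0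

/-- toughness: at most `|Z| + δ` layers, if there are at least two (`δ = 0`: tough, `δ = 1`: the
condition for hamiltonian paths) -/
def Tg (L : V → V → Prop) (W : Finset V) (δ : ℕ) : Prop :=
  ∀ (h : V → ℕ) (k : ℕ), Lay L W h k → 2 ≤ k → k ≤ (Z W h).card + δ

/-- tight layerings -/
structure Tt (L : V → V → Prop) (W : Finset V) (δ : ℕ) (h : V → ℕ) (k : ℕ) : Prop where
  lay : Lay L W h k
  two : 2 ≤ k
  eq : k = (Z W h).card + δ

/-- irreducible layerings: they have more layers than `|Z|`, and more than `k' + |Z \ Z'|` for every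
layering `h'` with `k' ≥ 2` layers and a strictly smaller removed set `Z'`. -/
structure Irr (L : V → V → Prop) (W : Finset V) (h : V → ℕ) (k : ℕ) : Prop where
  lay : Lay L W h k
  two : 2 ≤ k
  gt : (Z W h).card < k
  irr : ∀ (h' : V → ℕ) (k' : ℕ), Lay L W h' k' → 2 ≤ k' → Z W h' ⊂ Z W h →
    k' + (Z W h).card < k + (Z W h').card

/-- incomparable -/
def inc (L : V → V → Prop) (u v : V) : Prop := ¬ L u v ∧ ¬ L v u

/-- `v` is above the layers `1, …, i` of `h` -/
def Up (L : V → V → Prop) (W : Finset V) (h : V → ℕ) (i : ℕ) (v : V) : Prop :=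
  ∀ u ∈ W, 1 ≤ h u → h u ≤ i → L u v

/-- `v` is below everything that is above the layers `1, …, i` of `h` (closed lower side of the
`i`-th cut) -/
def Dn (L : V → V → Prop) (W : Finset V) (h : V → ℕ) (i : ℕ) (v : V) : Prop :=
  ∀ u ∈ W, Up L W h i u → L v u

/-- merge the layers `j, …, ρ` and the set `P` -/
def mg [DecidableEq V] (g : V → ℕ) (P : Finset V) (j ρ : ℕ) (v : V) : ℕ :=
  if v ∈ P then j else if g v < j then g v else if g v ≤ ρ then j else g v - (ρ - j)

/-- the states of the sweep: `c` is below everything except `a` and `b` and is to be joined with both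
of them -/
structure St (L : V → V → Prop) (W : Finset V) (c a b : V) : Prop where
  po : PO L W
  tg : Tg L W 0
  hc : c ∈ W
  ha : a ∈ W
  hb : b ∈ W
  ca : c ≠ a
  cb : c ≠ b
  ab : a ≠ b
  cr : ∀ r ∈ W, r ≠ c → r ≠ a → r ≠ b → L c r
  ca1 : ¬ L c a
  ca2 : ¬ L a c
  cb1 : ¬ L c b
  cb2 : ¬ L b c
  ra : ∀ r ∈ W, r ≠ c → r ≠ a → r ≠ b → ¬ L r a
  rb : ∀ r ∈ W, r ≠ c → r ≠ a → r ≠ b → ¬ L r b

/-- `x` is a minimal element of the rest of the state which is incomparable to the end `a` -/
structure Cand (L : V → V → Prop) (W : Finset V) (c a b x : V) : Prop where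
  hx : x ∈ W
  xc : x ≠ c
  xa : x ≠ a
  xb : x ≠ b
  ax : ¬ L a x
  mn : ∀ r ∈ W, r ≠ c → r ≠ a → r ≠ b → ¬ L r x

/-- after joining `a` and `x` the element `x` is the new end: it is no longer above `c` -/
def L1 (L : V → V → Prop) (c x : V) (u v : V) : Prop := L u v ∧ ¬ (u = c ∧ v = x)

end Pool.Agent.L7h35.CC
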