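import Pool.Agent.L7h35.CC.Zig

/-!
# First layers of tight layerings
-/

set_option autoImplicit false

namespace Pool.Agent.L7h35.CC

variable {V : Type} [DecidableEq V] {L : V → V → Prop} {W : Finset V} {h g : V → ℕ} {k l : ℕ}

/-- the first layer of a tight layering is a down-set -/
lemma first_down {δ : ℕ} (hP : PO L W) (hT : Tg L W δ) (hh : Tt L W δ h k) {u v : V}
    (hu : u ∈ W) (hv : v ∈ W) (hv1 : h v = 1) (huv : L u v) : h u = 1 := by
  by_contra hcon
  have huv' : u ≠ v := by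
    rintro rfl
    exact hP.irr u hu huv
  by_cases h0 : h u = 0
  · have hle : ∀ w, w ≠ u → Function.update h u 1 w = h w := fun w hw =>
      Function.update_of_ne hw _ _
    have hu1 : Function.update h u 1 u = 1 := Function.update_self _ _ _
    have hlay : Lay L W (Function.update h u 1) k := by
      refine ⟨?_, ?_, ?_⟩
      · intro w hw
        by_cases hwu : w = u
        · rw [hwu, hu1]
          have := hh.two
          omega
        · rw [hle w hwu]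
          exact hh.lay.le w hw
      · intro i hi hik
        obtain ⟨w, hw, hwi⟩ := hh.lay.ne i hi hik
        refine ⟨w, hw, ?_⟩
        rw [hle w ?_, hwi]
        rintro rfl
        omega
      · intro a ha b hb h1 h2
        by_cases hau : a = u
        · rw [hau, hu1] at h2
          by_cases hbu : b = u
          · rw [hbu, hu1] at h2
            omega
          · rw [hle b hbu] at h2
            rw [hau]
            exact hP.tr u hu v hv b hb huv (hh.lay.lt v hv b hb (by omega) (by omega))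
        · rw [hle a hau] at h1 h2
          by_cases hbu : b = u
          · rw [hbu, hu1] at h2
            omega
          · rw [hle b hbu] at h2
            exact hh.lay.lt a ha b hb h1 h2
    have h1 := hT _ _ hlay hh.two
    have h2 : (Z W (Function.update h u 1)).card < (Z W h).card := by
      apply Finset.card_lt_card
      rw [Finset.ssubset_iff_of_subset]
      · refine ⟨u, mem_Z.2 ⟨hu, h0⟩, ?_⟩
        rw [mem_Z, hu1]
        rintro ⟨-, h3⟩
        omega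
      · intro w hw
        rw [mem_Z] at hw ⊢
        have hwu : w ≠ u := by
          rintro rfl
          rw [hu1] at hw
          omega
        rw [hle w hwu] at hw
        exact hw
    have h3 := hh.eq
    omega
  · have h1 := hh.lay.lt v hv u hu (by omega) (by omega)
    exact hP.irr u hu (hP.tr u hu v hv u hu huv h1)

/-- crossing first layers: the data of the zigzag -/
lemma cross {δ : ℕ} (hδ : δ ≤ 1) (hP : PO L W) (hT : Tg L W δ) (hh : Tt L W δ h k)
    (hg : Tt L W δ g l) (hx : ∃ x ∈ W, h x = 1 ∧ g x ≠ 1) (hx' : ∃ x ∈ W, g x = 1 ∧ h x ≠ 1) :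
    ∃ (α β ρ ρ' : ℕ) (P P' : Finset V), 1 < α ∧ 1 < β ∧ 1 ≤ ρ ∧ ρ ≤ l ∧ 1 ≤ ρ' ∧ ρ' ≤ k ∧
      ρ ≤ β ∧ ρ' ≤ α ∧
      (∀ v, v ∈ P ↔ v ∈ W ∧ g v = 0 ∧ 1 ≤ h v ∧ h v < α) ∧
      (∀ v, v ∈ P' ↔ v ∈ W ∧ h v = 0 ∧ 1 ≤ g v ∧ g v < β) ∧
      (1 < ρ → ∃ y ∈ W, g y = ρ ∧ h y = 0) ∧ (1 < ρ' → ∃ y ∈ W, h y = ρ' ∧ g y = 0) ∧
      (W.filter fun v => h v = 1 ∧ g v ≠ 1).card + (α - 2) ≤ P.card ∧
      (W.filter fun v => g v = 1 ∧ h v ≠ 1).card + (β - 2) ≤ P'.card ∧
      (P.card + 1 ≤ ρ ∨ (δ = 0 ∧ P.card = ρ ∧ ρ = l ∧ P = Z W g)) ∧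
      (P'.card + 1 ≤ ρ' ∨ (δ = 0 ∧ P'.card = ρ' ∧ ρ' = k ∧ P' = Z W h)) ∧
      Lay L W (mg g P 1 ρ) (l - (ρ - 1)) ∧ Z W (mg g P 1 ρ) = Z W g \ P ∧
      Lay L W (mg h P' 1 ρ') (k - (ρ' - 1)) ∧ Z W (mg h P' 1 ρ') = Z W h \ P' ∧
      P ⊆ Z W g ∧ P' ⊆ Z W h := by
  obtain ⟨x, hxW, hx1, hx2⟩ := hx
  obtain ⟨x', hxW', hx1', hx2'⟩ := hx'
  have f3 : ∀ y ∈ W, h y = 1 → g y ≤ 1 := by
    intro y hy hy1
    by_contra hcon
    have h1 := hg.lay.lt x' hxW' y hy (by omega) (by omega)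
    exact hx2' (first_down hP hT hh hxW' hy hy1 h1)
  have f3' : ∀ y ∈ W, g y = 1 → h y ≤ 1 := by
    intro y hy hy1
    by_contra hcon
    have h1 := hh.lay.lt x hxW y hy (by omega) (by omega)
    exact hx2 (first_down hP hT hg hxW hy hy1 h1)
  obtain ⟨α, β, ρ, ρ', P, P', a1, a2, a3, a4, a5, a6, a7, a8, a9, a10, a11, a12, a13, a14, a15, a16,
    a17, a18⟩ := s_sk V L W h g k l 1 1 hP hh.lay hg.lay le_rfl (by have := hh.two; omega) le_rfl
      (by have := hg.two; omega) (fun y hy h1 h2 => f3 y hy (by omega))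
      (fun y hy h1 h2 => f3' y hy (by omega))
  have hPiff : ∀ v, v ∈ P ↔ v ∈ W ∧ g v = 0 ∧ 1 ≤ h v ∧ h v < α := by
    intro v
    rw [a13]
    constructor
    · rintro ⟨b1, b2, b3, b4, -⟩
      exact ⟨b1, b2, b3, b4⟩
    · rintro ⟨b1, b2, b3, b4⟩
      exact ⟨b1, b2, b3, b4, fun u _ h1 h2 => by omega⟩
  have hPiff' : ∀ v, v ∈ P' ↔ v ∈ W ∧ h v = 0 ∧ 1 ≤ g v ∧ g v < β := by
    intro v
    rw [a14]
    constructor
    · rintro ⟨b1, b2, b3, b4, -⟩
      exact ⟨b1, b2, b3, b4⟩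
    · rintro ⟨b1, b2, b3, b4⟩
      exact ⟨b1, b2, b3, b4, fun u _ h1 h2 => by omega⟩
  have hPZ : P ⊆ Z W g := fun v hv => mem_Z.2 ⟨((hPiff v).1 hv).1, ((hPiff v).1 hv).2.1⟩
  have hPZ' : P' ⊆ Z W h := fun v hv => mem_Z.2 ⟨((hPiff' v).1 hv).1, ((hPiff' v).1 hv).2.1⟩
  obtain ⟨m1, m2⟩ := s_mg V L W g l 1 ρ P hP hg.lay le_rfl a7 a8 hPZ
    (fun w _ u _ h1 h2 => by omega) a15
  obtain ⟨n1, n2⟩ := s_mg V L W h k 1 ρ' P' hP hh.lay le_rfl a9 a10 hPZ'
    (fun w _ u _ h1 h2 => by omega) a16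
  have c1 := s_ct V L W h k 1 α P hh.lay a1 a2 (fun v hv h1 h2 =>
    (hPiff v).2 ⟨hv, a5 v hv h1 h2, by omega, h2⟩)
  have c2 := s_ct V L W g l 1 β P' hg.lay a3 a4 (fun v hv h1 h2 =>
    (hPiff' v).2 ⟨hv, a6 v hv h1 h2, by omega, h2⟩)
  have d1 : (W.filter fun v => h v = 1 ∧ g v ≠ 1).card ≤ (P.filter fun v => h v ≤ 1).card := by
    apply Finset.card_le_card
    intro v hv
    rw [Finset.mem_filter] at hv ⊢
    have := f3 v hv.1 hv.2.1
    exact ⟨(hPiff v).2 ⟨hv.1, by omega, by omega, by omega⟩, by omega⟩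
  have d2 : (W.filter fun v => g v = 1 ∧ h v ≠ 1).card ≤ (P'.filter fun v => g v ≤ 1).card := by
    apply Finset.card_le_card
    intro v hv
    rw [Finset.mem_filter] at hv ⊢
    have := f3' v hv.1 hv.2.1
    exact ⟨(hPiff' v).2 ⟨hv.1, by omega, by omega, by omega⟩, by omega⟩
  have e1 := Finset.card_le_card hPZ
  have e2 := Finset.card_le_card hPZ'
  have s1 : (Z W g \ P).card = (Z W g).card - P.card := Finset.card_sdiff_of_subset hPZ
  have s2 : (Z W h \ P').card = (Z W h).card - P'.card := Finset.card_sdiff_of_subset hPZ'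
  have q1 := hg.eq
  have q2 := hh.eq
  refine ⟨α, β, ρ, ρ', P, P', a1, a3, a7, a8, a9, a10, a11, a12, hPiff, hPiff', a17, a18,
    by omega, by omega, ?_, ?_, m1, m2, n1, n2, hPZ, hPZ'⟩
  · by_cases hρ : ρ < l
    · have t1 := hT _ _ m1 (by omega)
      rw [m2, s1] at t1
      left
      omega
    · by_cases hc : P.card + 1 ≤ ρ
      · exact Or.inl hc
      · right
        refine ⟨by omega, by omega, by omega, ?_⟩
        exact Finset.eq_of_subset_of_card_le hPZ (by omega)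
  · by_cases hρ : ρ' < k
    · have t1 := hT _ _ n1 (by omega)
      rw [n2, s2] at t1
      left
      omega
    · by_cases hc : P'.card + 1 ≤ ρ'
      · exact Or.inl hc
      · right
        refine ⟨by omega, by omega, by omega, ?_⟩
        exact Finset.eq_of_subset_of_card_le hPZ' (by omega)

lemma card_pos_of {W : Finset V} {p : V → Prop} [DecidablePred p] (hx : ∃ x ∈ W, p x) :
    1 ≤ (W.filter p).card := by
  obtain ⟨x, hx, hx'⟩ := hx
  exact Finset.card_pos.2 ⟨x, Finset.mem_filter.2 ⟨hx, hx'⟩⟩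

lemma fn_aux (n : ℕ) : ∀ (L : V → V → Prop) (W : Finset V) (h g : V → ℕ) (k l : ℕ),
    PO L W → Tg L W 1 → Tt L W 1 h k → Tt L W 1 g l → (Z W h).card + (Z W g).card = n →
    (∀ v ∈ W, h v = 1 → g v = 1) ∨ (∀ v ∈ W, g v = 1 → h v = 1) := by
  induction n using Nat.strong_induction_on with
  | _ n ih =>
    intro L W h g k l hP hT hh hg hn
    by_contra hcon
    push Not at hcon
    obtain ⟨hx, hx'⟩ := hcon
    obtain ⟨α, β, ρ, ρ', P, P', a1, a2, a3, a4, a5, a6, a7, a8, a9, a10, a11, a12, a13, a14, a15,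
      a16, m1, m2, n1, n2, hPZ, hPZ'⟩ := cross le_rfl hP hT hh hg hx hx'
    have c1 := card_pos_of hx
    have c2 := card_pos_of hx'
    have a15 : P.card + 1 ≤ ρ := by
      rcases a15 with h1 | h1
      · exact h1
      · exact absurd h1.1 (by norm_num)
    have a16 : P'.card + 1 ≤ ρ' := by
      rcases a16 with h1 | h1
      · exact h1
      · exact absurd h1.1 (by norm_num)
    have q1 := hg.eq
    have q2 := hh.eq
    obtain ⟨y, hy, hy1, hy2⟩ := a11 (by omega)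
    obtain ⟨y', hy', hy1', hy2'⟩ := a12 (by omega)
    have hyP : y ∉ P' := fun hc => by have := (a10 y).1 hc; omega
    have hyP' : y' ∉ P := fun hc => by have := (a9 y').1 hc; omega
    have s1 : (Z W g \ P).card = (Z W g).card - P.card := Finset.card_sdiff_of_subset hPZ
    have s2 : (Z W h \ P').card = (Z W h).card - P'.card := Finset.card_sdiff_of_subset hPZ'
    have e1 := Finset.card_le_card hPZ
    have e2 := Finset.card_le_card hPZ'
    have p1 : 1 ≤ (Z W g \ P).card :=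
      Finset.card_pos.2 ⟨y', Finset.mem_sdiff.2 ⟨mem_Z.2 ⟨hy', hy2'⟩, hyP'⟩⟩
    have p2 : 1 ≤ (Z W h \ P').card :=
      Finset.card_pos.2 ⟨y, Finset.mem_sdiff.2 ⟨mem_Z.2 ⟨hy, hy2⟩, hyP⟩⟩
    have t1 : Tt L W 1 (mg g P 1 ρ) (l - (ρ - 1)) := by
      refine ⟨m1, ?_, ?_⟩
      · omega
      · rw [m2]
        omega
    have t2 : Tt L W 1 (mg h P' 1 ρ') (k - (ρ' - 1)) := by
      refine ⟨n1, ?_, ?_⟩
      · omega
      · rw [n2]
        omega
    have hgy : mg g P 1 ρ y = 1 := mg_mid (by omega) (by omega)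
    have hhy : mg h P' 1 ρ' y = 0 := by rw [mg_lt hyP (by omega), hy2]
    have hhy' : mg h P' 1 ρ' y' = 1 := mg_mid (by omega) (by omega)
    have hgy' : mg g P 1 ρ y' = 0 := by rw [mg_lt hyP' (by omega), hy2']
    have h1 := ih _ (by rw [n2, m2]; omega) L W (mg h P' 1 ρ') (mg g P 1 ρ) _ _ hP hT t2 t1 rfl
    rcases h1 with h1 | h1
    · have := h1 y' hy' hhy'
      omega
    · have := h1 y hy hgy
      omega

theorem s_fn : S_FN := by
  intro V _ L W h g k l hP hT hh hg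
  exact fn_aux _ L W h g k l hP hT hh hg rfl

lemma PO.mono {W' : Finset V} (hP : PO L W) (hs : W' ⊆ W) : PO L W' :=
  ⟨fun a ha => hP.irr a (hs ha), fun a ha b hb c hc => hP.tr a (hs ha) b (hs hb) c (hs hc)⟩

/-- removing an element of `Z` -/
lemma Lay.erase {q : V} (hh : Lay L W h k) (hq : h q = 0) : Lay L (W.erase q) h k := by
  refine ⟨fun v hv => hh.le v (Finset.mem_of_mem_erase hv), ?_, ?_⟩
  · intro i hi hik
    obtain ⟨v, hv, hvi⟩ := hh.ne i hi hik
    refine ⟨v, Finset.mem_erase.2 ⟨?_, hv⟩, hvi⟩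
    rintro rfl
    omega
  · intro u hu v hv
    exact hh.lt u (Finset.mem_of_mem_erase hu) v (Finset.mem_of_mem_erase hv)

lemma Lay.unerase {q : V} (hh : Lay L (W.erase q) h k) :
    Lay L W (Function.update h q 0) k := by
  have hle : ∀ w, w ≠ q → Function.update h q 0 w = h w := fun w hw =>
    Function.update_of_ne hw _ _
  have hq : Function.update h q 0 q = 0 := Function.update_self _ _ _
  refine ⟨?_, ?_, ?_⟩
  · intro v hv
    by_cases hvq : v = q
    · rw [hvq, hq]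
      exact Nat.zero_le _
    · rw [hle v hvq]
      exact hh.le v (Finset.mem_erase.2 ⟨hvq, hv⟩)
  · intro i hi hik
    obtain ⟨v, hv, hvi⟩ := hh.ne i hi hik
    refine ⟨v, Finset.mem_of_mem_erase hv, ?_⟩
    rw [hle v (Finset.ne_of_mem_erase hv), hvi]
  · intro u hu v hv h1 h2
    have huq : u ≠ q := by
      rintro rfl
      omega
    have hvq : v ≠ q := by
      rintro rfl
      omega
    rw [hle u huq] at h1 h2
    rw [hle v hvq] at h2
    exact hh.lt u (Finset.mem_erase.2 ⟨huq, hu⟩) v (Finset.mem_erase.2 ⟨hvq, hv⟩) h1 h2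

lemma Z_erase {q : V} : Z (W.erase q) h = (Z W h).erase q := by
  ext v
  rw [mem_Z, Finset.mem_erase, Finset.mem_erase, mem_Z, and_assoc]

lemma Z_unerase {q : V} (hq : q ∈ W) :
    (Z W (Function.update h q 0)).card = (Z (W.erase q) h).card + 1 := by
  have h1 : Z W (Function.update h q 0) = insert q (Z (W.erase q) h) := by
    ext v
    rw [mem_Z, Finset.mem_insert, mem_Z, Finset.mem_erase]
    by_cases hv : v = q
    · subst hv
      simp [hq]
    · rw [Function.update_of_ne hv]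
      simp [hv]
  rw [h1, Finset.card_insert_of_notMem]
  rw [mem_Z]
  exact fun h2 => (Finset.notMem_erase q W) h2.1

lemma Tg.erase {δ : ℕ} {q : V} (hT : Tg L W δ) (hq : q ∈ W) : Tg L (W.erase q) (δ + 1) := by
  intro h k hh h2
  have h1 := hT _ _ hh.unerase h2
  rw [Z_unerase hq] at h1
  omega

lemma Tt.erase {δ : ℕ} {q : V} (hh : Tt L W δ h k) (hq : q ∈ W) (hq0 : h q = 0) :
    Tt L (W.erase q) (δ + 1) h k := by
  refine ⟨hh.lay.erase hq0, hh.two, ?_⟩
  rw [Z_erase, Finset.card_erase_of_mem (mem_Z.2 ⟨hq, hq0⟩)]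
  have h1 : 1 ≤ (Z W h).card := Finset.card_pos.2 ⟨q, mem_Z.2 ⟨hq, hq0⟩⟩
  have h2 := hh.eq
  omega

theorem s_cl : S_CL := by
  classical
  intro V _ L W h g k l hP hT hh hg
  by_cases hcr : (∀ v ∈ W, h v = 1 → g v = 1) ∨ (∀ v ∈ W, g v = 1 → h v = 1)
  · rcases hcr with h1 | h1
    · exact Or.inl h1
    · exact Or.inr (Or.inl h1)
  right; right
  push Not at hcr
  obtain ⟨hx, hx'⟩ := hcr
  have c1 := card_pos_of hx
  have c2 := card_pos_of hx'
  refine ⟨?_, ?_, ?_⟩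
  · obtain ⟨α, β, ρ, ρ', P, P', a1, a2, a3, a4, a5, a6, a7, a8, a9, a10, a11, a12, a13, a14, a15,
      a16, m1, m2, n1, n2, hPZ, hPZ'⟩ := cross (by norm_num) hP hT hh hg hx hx'
    have k2 := hh.two
    have l2 := hg.two
    have b1 : P.card + 1 ≤ ρ ∨ (P.card = ρ ∧ ρ = l ∧ (1 < ρ' → ρ' < α)) := by
      rcases a15 with h1 | ⟨-, h1, h2, h3⟩
      · exact Or.inl h1
      · refine Or.inr ⟨h1, h2, fun h4 => ?_⟩
        obtain ⟨y, hy, hy1, hy2⟩ := a12 h4
        have h5 : y ∈ P := h3 ▸ mem_Z.2 ⟨hy, hy2⟩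
        have := (a9 y).1 h5
        omega
    have b2 : P'.card + 1 ≤ ρ' ∨ (P'.card = ρ' ∧ ρ' = k ∧ (1 < ρ → ρ < β)) := by
      rcases a16 with h1 | ⟨-, h1, h2, h3⟩
      · exact Or.inl h1
      · refine Or.inr ⟨h1, h2, fun h4 => ?_⟩
        obtain ⟨y, hy, hy1, hy2⟩ := a11 h4
        have h5 : y ∈ P' := h3 ▸ mem_Z.2 ⟨hy, hy2⟩
        have := (a10 y).1 h5
        omega
    omega
  · obtain ⟨α, β, ρ, ρ', P, P', a1, a2, a3, a4, a5, a6, a7, a8, a9, a10, a11, a12, a13, a14, a15,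
      a16, m1, m2, n1, n2, hPZ, hPZ'⟩ := cross (by norm_num) hP hT hh hg hx hx'
    have k2 := hh.two
    have l2 := hg.two
    have b1 : P.card + 1 ≤ ρ ∨ (P.card = ρ ∧ ρ = l ∧ (1 < ρ' → ρ' < α)) := by
      rcases a15 with h1 | ⟨-, h1, h2, h3⟩
      · exact Or.inl h1
      · refine Or.inr ⟨h1, h2, fun h4 => ?_⟩
        obtain ⟨y, hy, hy1, hy2⟩ := a12 h4
        have h5 : y ∈ P := h3 ▸ mem_Z.2 ⟨hy, hy2⟩
        have := (a9 y).1 h5
        omega
    have b2 : P'.card + 1 ≤ ρ' ∨ (P'.card = ρ' ∧ ρ' = k ∧ (1 < ρ → ρ < β)) := by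
      rcases a16 with h1 | ⟨-, h1, h2, h3⟩
      · exact Or.inl h1
      · refine Or.inr ⟨h1, h2, fun h4 => ?_⟩
        obtain ⟨y, hy, hy1, hy2⟩ := a11 h4
        have h5 : y ∈ P' := h3 ▸ mem_Z.2 ⟨hy, hy2⟩
        have := (a10 y).1 h5
        omega
    omega
  · intro q hq hq0 hq0'
    have h1 := s_fn V L (W.erase q) h g k l (hP.mono (Finset.erase_subset _ _)) (hT.erase hq)
      (hh.erase hq hq0) (hg.erase hq hq0')
    obtain ⟨x, hx, hx1, hx2⟩ := hx
    obtain ⟨x', hx', hx1', hx2'⟩ := hx'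
    rcases h1 with h1 | h1
    · refine hx2 (h1 x (Finset.mem_erase.2 ⟨?_, hx⟩) hx1)
      rintro rfl
      omega
    · refine hx2' (h1 x' (Finset.mem_erase.2 ⟨?_, hx'⟩) hx1')
      rintro rfl
      omega

end Pool.Agent.L7h35.CC
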