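import Pool.Agent.L7h35.CC.Defs

/-!
# Statements of the parts of the proof

Target: the subtour relaxation is exact for graph-TSP on all connected cocomparability graphs.
-/

set_option autoImplicit false

namespace Pool.Agent.L7h35.CC

/-- merging layers -/
def S_MG : Prop :=
  ∀ (V : Type) [DecidableEq V] (L : V → V → Prop) (W : Finset V) (g : V → ℕ) (l j ρ : ℕ)
    (P : Finset V), PO L W → Lay L W g l → 1 ≤ j → j ≤ ρ → ρ ≤ l → P ⊆ Z W g →
    (∀ w ∈ P, ∀ u ∈ W, 1 ≤ g u → g u < j → L u w) →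
    (∀ w ∈ P, ∀ y ∈ W, ρ < g y → L w y) →
    Lay L W (mg g P j ρ) (l - (ρ - j)) ∧ Z W (mg g P j ρ) = Z W g \ P

/-- The zigzag. `P = {1 ≤ h < α, g = 0, above the layers < j of g}`,
`P' = {1 ≤ g < β, h = 0, above the layers < i of h}`.
PROOF. `α` = the largest number in `(i, k+1]` with `i < h v < α → g v = 0`, `β` similarly.
`ρ` = the least number `≥ j` with `∀ w ∈ P, ∀ y ∈ W, ρ < g y → L w y` (`l` has this property).
Claim: if `y ∈ W`, `j < g y`, `w ∈ P`, `y2 ∈ W`, `¬ L w y2` and `y = y2` or `L y y2`, then `h y = 0`.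
(If `h y ≥ 1`: `h y > i` by hypothesis 1; `h y ≥ α` since `g y ≠ 0`; so `L w y`, so `L w y2`.)
If `j < ρ` there are `w ∈ P`, `y2 ∈ W` with `g y2 = ρ` and `¬ L w y2` by minimality of `ρ`; the claim
gives `h y2 = 0` and `h = 0` on all layers strictly between `j` and `ρ`; so `ρ ≤ β`. Same for `ρ'`. -/
def S_SK : Prop :=
  ∀ (V : Type) [DecidableEq V] (L : V → V → Prop) (W : Finset V) (h g : V → ℕ) (k l i j : ℕ),
    PO L W → Lay L W h k → Lay L W g l → 1 ≤ i → i < k → 1 ≤ j → j < l →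
    (∀ y ∈ W, 1 ≤ h y → h y ≤ i → g y ≤ j) →
    (∀ y ∈ W, 1 ≤ g y → g y ≤ j → h y ≤ i) →
    ∃ (α β ρ ρ' : ℕ) (P P' : Finset V), i < α ∧ α ≤ k + 1 ∧ j < β ∧ β ≤ l + 1 ∧
      (∀ v ∈ W, i < h v → h v < α → g v = 0) ∧ (∀ v ∈ W, j < g v → g v < β → h v = 0) ∧
      j ≤ ρ ∧ ρ ≤ l ∧ i ≤ ρ' ∧ ρ' ≤ k ∧ ρ ≤ β ∧ ρ' ≤ α ∧
      (∀ v, v ∈ P ↔ v ∈ W ∧ g v = 0 ∧ 1 ≤ h v ∧ h v < α ∧ ∀ u ∈ W, 1 ≤ g u → g u < j → L u v) ∧
      (∀ v, v ∈ P' ↔ v ∈ W ∧ h v = 0 ∧ 1 ≤ g v ∧ g v < β ∧ ∀ u ∈ W, 1 ≤ h u → h u < i → L u v) ∧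
      (∀ w ∈ P, ∀ y ∈ W, ρ < g y → L w y) ∧ (∀ w ∈ P', ∀ y ∈ W, ρ' < h y → L w y) ∧
      (j < ρ → ∃ y ∈ W, g y = ρ ∧ h y = 0) ∧ (i < ρ' → ∃ y ∈ W, h y = ρ' ∧ g y = 0)

/-- Counting: the layers strictly between `i` and `α` all meet `P`. -/
def S_CT : Prop :=
  ∀ (V : Type) [DecidableEq V] (L : V → V → Prop) (W : Finset V) (h : V → ℕ) (k i α : ℕ)
    (P : Finset V), Lay L W h k → i < α → α ≤ k + 1 →
    (∀ v ∈ W, i < h v → h v < α → v ∈ P) →
    (P.filter fun v => h v ≤ i).card + (α - i - 1) ≤ P.card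

/-- In path-tough posets the first layers of tight layerings are nested.
PROOF by induction on `|Z h| + |Z g|`. Suppose `x, x' ∈ W`, `h x = 1`, `g x ≠ 1`, `g x' = 1`,
`h x' ≠ 1`. (F2) the first layer of a tight layering is a down-set: if `L u v`, `h v = 1`: `h u ≥ 2` is
impossible; if `h u = 0` then `Function.update h u 1` is a layering with the same `k` and smaller `Z`,
against `Tg`. (F3) `h y = 1 → g y ≤ 1` (if `g y ≥ 2` then everything with `g = 1` is below `y`, so has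
`h = 1`, against `x'`), and conversely. Apply `S_SK` with `i = j = 1`. By `S_MG` (for `g, P, 1, ρ`)
and `Tg`: if `ρ < l` then `l - (ρ - 1) ≤ |Z g| - |P| + 1 = l - |P|`, so `|P| + 1 ≤ ρ`; if `ρ = l`,
`|P| ≤ |Z g| = l - 1` gives the same. Likewise `|P'| + 1 ≤ ρ'`. `S_CT`: `|P| ≥ 1 + (α - 2)` (as
`x ∈ P`, `g x = 0`), `|P'| ≥ 1 + (β - 2)`. So `β ≥ ρ ≥ |P| + 1 ≥ α ≥ ρ' ≥ |P'| + 1 ≥ β`: all equal.
With `y, y'` from the last line of `S_SK` (`g y = ρ = β`, `h y = 0`, so `y ∉ P'`; `h y' = ρ'`,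
`g y' = 0`, `y' ∉ P`) the layerings `mg g P 1 ρ` and `mg h P' 1 ρ'` are tight (`|Z g \ P| = l - ρ ≥ 1`
because it contains `y'`), crossing (`y` and `y'`), and have smaller `Z`. -/
def S_FN : Prop :=
  ∀ (V : Type) [DecidableEq V] (L : V → V → Prop) (W : Finset V) (h g : V → ℕ) (k l : ℕ),
    PO L W → Tg L W 1 → Tt L W 1 h k → Tt L W 1 g l →
    (∀ v ∈ W, h v = 1 → g v = 1) ∨ (∀ v ∈ W, g v = 1 → h v = 1)

/-- Crossing tight layerings of tough posets.
PROOF. If `q ∈ W` has `h q = 0 = g q`, apply `S_FN` to `W.erase q` (a layering `h` of `W.erase q` gives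
the layering `Function.update h q 0` of `W`, so `W.erase q` satisfies `Tg _ _ 1`). So suppose
the first layers are not nested. As in `S_FN` (F2), (F3), `S_SK` with `i = j = 1`, `S_MG`, `S_CT`,
but now `|P| + 1 ≤ ρ` only if `ρ < l` or `|P| < l`; otherwise `ρ = l = |P|`, `P = Z W g`, and then
the last line of `S_SK` gives `y'` with `h y' = ρ'`, `y' ∈ P`, so `ρ' < α` (if `1 < ρ'`). Let `x` =
number of `v ∈ W` with `h v = 1`, `g v ≠ 1` (all of them in `P`), `x'` similarly: the inequalities give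
`x + x' ≤ 2` in all four cases. -/
def S_CL : Prop :=
  ∀ (V : Type) [DecidableEq V] (L : V → V → Prop) (W : Finset V) (h g : V → ℕ) (k l : ℕ),
    PO L W → Tg L W 0 → Tt L W 0 h k → Tt L W 0 g l →
    (∀ v ∈ W, h v = 1 → g v = 1) ∨ (∀ v ∈ W, g v = 1 → h v = 1) ∨
    ((W.filter fun v => h v = 1 ∧ g v ≠ 1).card = 1 ∧
      (W.filter fun v => g v = 1 ∧ h v ≠ 1).card = 1 ∧ ∀ v ∈ W, h v = 0 → g v ≠ 0)

/-- The cuts of irreducible layerings are nested.
PROOF. Notation: `D_i = {1 ≤ h ≤ i}`, `U_i = {Up L W h i}`, `DD_i = {Dn L W h i}`; `D_i ⊆ DD_i`,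
`{h > i} ⊆ U_i`, `DD_i` and `U_i` are disjoint, so `v ∈ W` outside of both has `h v = 0`; `DD_i` is a
down-set. If `D_i ⊆ DD'_j` then `U'_j ⊆ U_i` and `DD_i ⊆ DD'_j`. Suppose some pair is not nested; take
`i` minimal, then `j` minimal. So there are `x ∈ D_i`, `x ∉ DD'_j` and `x' ∈ D'_j`, `x' ∉ DD_i`.
(1) `D_i ∩ {g > j} = ∅` (`x0` in it: `D'_j < x0 < U_i`, so `D'_j ⊆ DD_i`), and symmetrically.
(2) `i = 1` or `DD_{i-1} ⊆ DD'_j`; `j = 1` or `DD'_{j-1} ⊆ DD_i` (minimality; monotone in the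
index); and the pair `(i-1, j-1)` is nested if `i, j ≥ 2`: by symmetry assume `DD_{i-1} ⊆ DD'_{j-1}` or
`i = 1` (all of (1), (2) is symmetric).
(3) `x' ∈ D'_j \ DD_i` has `g x' = j` (else in `DD'_{j-1} ⊆ DD_i`), so `x' ∈ U'_{j-1} ⊆ U_{i-1}`.
`S_SK` with `i, j` (its hypotheses are (1)). By (2) the elements with `i < h v < α` are in `P`
(`U_i ⊆ U'_{j-1}`), those with `j < g v < β` are in `P'`, and `x' ∈ P'` by (3) (`h x' = 0` by (1)).
`S_MG` for `h, P', i, ρ'` and irreducibility: `P'` is not empty, so `|P'| + 1 ≤ ρ' - i`, unless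
`k - (ρ' - i) = 1`, i.e. `i = 1`, `ρ' = k`, and then `|P'| ≤ |Z h| ≤ k - 1`, so `|P'| ≤ ρ' - i`, with
equality only if `P' = Z W h`. Same for `P` if it is not empty. `S_CT`: `|P'| ≥ 1 + (β - j - 1)`,
`|P| ≥ α - i - 1`. If `P` is empty then `α = i + 1`, so `ρ' ≤ i + 1`, so `P' = Z W h = {x'}`; but there
is another element in `Z W h`: as `x ∉ DD'_j` there is `v ∈ U'_j` with `¬ L x v`; `h v > i` is
impossible, `1 ≤ h v ≤ i` is impossible (`x' < v`, so `x'` would be in `DD_i`), so `h v = 0`, and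
`v ≠ x'`. If `P` is not empty and `P' = Z W h` then `y` of `S_SK` (`g y = ρ > j`, `h y = 0`) is in `P'`,
so `ρ < β`; similarly if `P = Z W g` then `ρ' < α`. In all cases the inequalities contradict each
other. -/
def S_N : Prop :=
  ∀ (V : Type) [DecidableEq V] (L : V → V → Prop) (W : Finset V) (h g : V → ℕ) (k l : ℕ),
    PO L W → Irr L W h k → Irr L W g l → ∀ i j, 1 ≤ i → i < k → 1 ≤ j → j < l →
    (∀ v ∈ W, Dn L W h i v → Dn L W g j v) ∨ (∀ v ∈ W, Dn L W g j v → Dn L W h i v)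

/-- From fractional to integral numbers of visits.
PROOF from `S_N` and `Pool.Agent.R487.TSP.shift`. Chain of cuts: the finitely many sets
`DD = {v | Dn L univ h i v}`, `h` irreducible with `k` layers, `1 ≤ i < k`, are totally ordered by
`S_N`; let `A : Finset (Finset V)` be their set, and number them by cardinality: `t(DD) = |DD|` (real).
For `v` put `r v` = the least `|DD|` with `v ∈ DD ∈ A` (or `|V| + 1`), `l v` = 1 + the largest `|DD|`
with `v` above all of `DD ∈ A` (or `0`); `l v ≤ r v`. Then `cr l r P v` (for `P ⊆ R` = the set of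
the numbers `|DD|`) says that `v` is neither in nor above some `DD` with `|DD| ∈ P`. `adm l r P`
gives the layering `v ↦ 0` if `cr l r P v`, else `1 +` number of `t ∈ P` with `v` above the set with
number `t`: it has `|P| + 1` layers. So `shift` applies (`m = 1`, any `k > ∑ f - |V|`). Conversely a
violated layering with `|Z|` minimal is irreducible, and the set `P` of the numbers of its cuts
is admissible, of size `k - 1`, with `cr ⊆ Z`, contradiction. -/
def S_RD : Prop :=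
  ∀ (V : Type) [DecidableEq V] [Fintype V] (L : V → V → Prop) (f : V → ℝ),
    PO L Finset.univ → (∀ v, 1 ≤ f v) →
    (∀ (h : V → ℕ) (k : ℕ), Lay L Finset.univ h k → 2 ≤ k →
      (k : ℝ) ≤ ∑ v ∈ Z Finset.univ h, f v) →
    ∃ m : V → ℕ, (∀ v, 1 ≤ m v) ∧ (∑ v, (m v : ℝ)) ≤ ∑ v, f v ∧
      ∀ (h : V → ℕ) (k : ℕ), Lay L Finset.univ h k → 2 ≤ k → k ≤ ∑ v ∈ Z Finset.univ h, m v

/-- Existence of a step (uses `S_FN`, `S_CL`).
PROOF. Let `R = W \ {c, a, b}`. Suppose every `Cand` `x` of `a` has a tight `h` with `h a = 0`,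
`h x ≤ 1`, and every `Cand` `y` of `b` has a tight `g` with `g b = 0`, `g y ≤ 1`.
(T2) tight `h` with `h a = 0` (or `h b = 0`) has `h c = 1`: see `S_ST`. (T3) if `h a = h b = 0` then
`c` is the only element of layer `1` (all other elements of the layer are above `c`: split the layer,
against `Tg`). (T4) if `h a = 0` and `h b ≠ 0` then `h b = 1` (else `L c b`).
`Tg L R 1` holds: from a layering `h` of `R` with `k` layers take `c ↦ 1`, `a, b ↦ 0`, `r ↦ h r + 1` if
`h r ≠ 0` and `0` otherwise. There is `C ⊆ R` with: (C1) `h v = 1` for all `v ∈ C` and all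
tight layerings `h` of `R` (`Tt L R 1 h k`); (C2) `C` is a down-set of `R`; (C3) `C` contains a `Cand` `z`
of `a` and a `Cand` `y` of `b`. Namely `C = R` if `R` has no tight layering, otherwise the first layer of
a tight layering `h` of `R` for which it is smallest (`S_FN`). (C3): if `L a v` for all `v ∈ C` then
the layering `b ↦ 0`, `a, c ↦ 1`, `v ↦ h v + 1` (or `0` if `h v = 0`; all `2` if `C = R`) contradicts
`Tg L W 0`; a minimal element of `{v ∈ C | ¬ L a v}` is a `Cand` by (C2).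
Take tight `(h, k)` with `h a = 0`, `h z ≤ 1`. If `h b = 0` then `h z = 0` by (T3) and `v ↦ h v - 1` is
a tight layering of `R` with `k - 1 ≥ 2` layers, which contradicts (C1) for `z`. So `h b = 1`,
`h c = 1`; similarly a tight `(g, l)` with `g b = 0`, `g y ≤ 1`, `g a = 1`, `g c = 1`. The first layers
are not nested (`a`, `b`), so by `S_CL` `b` is the only element with `h = 1 ≠ g`, `a` is the only one
with `g = 1 ≠ h`, and `h v = 0 → g v ≠ 0`. So for `v ∈ R`: `h v = 1 ↔ g v = 1`.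
(i) no such `v ∈ R`: `¬ L b y` gives `h y = 0` (as `h b = 1`), so `g y ≠ 0`, so `g y = 1`, contradiction.
(ii) otherwise `D = {v ∈ R | h v = 1}` is not empty and every `r ∈ R \ D` is above `D` (`h r ≥ 2`, or
`h r = 0` and then `g r ≥ 2`); `R \ D` contains an element with `h = 2`; the layering `c ↦ 1`, `D ↦ 2`,
`R \ D ↦ 3`, `a, b ↦ 0` contradicts `Tg L W 0`. -/
def S_EX : Prop :=
  ∀ (V : Type) [DecidableEq V] (L : V → V → Prop) (W : Finset V) (c a b : V), St L W c a b →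
    (∃ r ∈ W, r ≠ c ∧ r ≠ a ∧ r ≠ b) →
    (∃ x, Cand L W c a b x ∧ ∀ h k, Tt L W 0 h k → h a = 0 → 2 ≤ h x) ∨
    (∃ x, Cand L W c b a x ∧ ∀ h k, Tt L W 0 h k → h b = 0 → 2 ≤ h x)

/-- A step.
PROOF. Only `Tg` is not immediate. Let `h` be a layering of `W.erase a` for `L1 L c x` with `k ≥ 2`
layers and `|Z| < k`; `h0 = Function.update h a 0` is a layering of `W` for `L`, so it is tight
(`Tt L W 0 h0 k`) and `h x ≥ 2` by hypothesis. If `h c ≥ 1`: `h c = h x` (else `L1 c x` or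
`L x c`), but the layer `1` contains an element `u`, `L u c`: impossible for all `u`. If `h c = 0`: if
`h b = 0`, put `c` alone in a new bottom layer (all other layered elements are above `c`); if `h b ≥ 1`
then `h b = 1` (an element of a lower layer would be in the rest and below `b`), put `c` into
layer `1`; both contradict `Tg L W 0`. -/
def S_ST : Prop :=
  ∀ (V : Type) [DecidableEq V] (L : V → V → Prop) (W : Finset V) (c a b x : V), St L W c a b →
    Cand L W c a b x → (∀ h k, Tt L W 0 h k → h a = 0 → 2 ≤ h x) →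
    St (L1 L c x) (W.erase a) c x b

/-- Hamiltonian paths of states.
PROOF from `S_EX` and `S_ST` by induction on `|W|`. If `W = {c, a, b}`: `[a, b]` (`inc L a b` by `Tg`
for the layering `a ↦ 1`, `b ↦ 2`, `c ↦ 0`). Otherwise a step; if it is at `a`: `a ::` the path
from `x` to `b` for `L1 L c x` on `W.erase a` (`inc (L1 L c x) u v ↔ inc L u v` for `u, v ≠ c`; `¬ L x a`
by `St.ra`); at `b`: use the symmetry `St L W c a b → St L W c b a` and reverse the list. -/
def S_PT : Prop :=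
  ∀ (V : Type) [DecidableEq V] (L : V → V → Prop) (W : Finset V) (c a b : V), St L W c a b →
    ∃ p : List V, p.head? = some a ∧ p.getLast? = some b ∧ p.Nodup ∧
      (∀ v, v ∈ p ↔ v ∈ W ∧ v ≠ c) ∧ p.IsChain (inc L)

/-- 1-tough cocomparability graphs are hamiltonian.
PROOF from `S_PT`. `c` a minimal element. On `V ⊕ Bool` let `inl u < inl v` iff `L u v` or (`u = c` and
`v ≠ c`); `inr s < inl v` iff `L c v`; no other relations. `St _ univ (inl c) (inr true) (inr false)`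
holds: for `Tg` let `h` be a layering with `k ≥ 2` layers. If `h (inr true) = h (inr false) = 0`: the
layering `v ↦ h (inl v)`, `c ↦ 0`, of `V` (renumber the layers: at most the layer of `inl c` is lost)
has at least `k - 1` layers and `|Z| ≤ |Z h| - 1`; if it has `≤ 1` layers then `k ≤ 2 ≤ |Z h|`. If
`h (inr s) ≥ 1` for some `s`, `h (inl c)` is `0` or equal to `h (inr s)`; the layering `v ↦ h (inl v)`,
`c ↦ h (inr s)` of `V` has `k` layers and `|Z| ≤ |Z h|`. The path from `inr true` to `inr false` covers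
`inr true`, `inr false` and all `inl v`, `v ≠ c`: remove both ends, and put `c` in front. -/
def S_HAM : Prop :=
  ∀ (V : Type) [DecidableEq V] [Fintype V] [Nonempty V] (L : V → V → Prop),
    PO L Finset.univ → Tg L Finset.univ 0 →
    ∃ (x : V) (w : List V), (x :: w).Nodup ∧ (∀ v, v ∈ x :: w) ∧ (x :: w).IsChain (inc L) ∧
      ∀ y, (x :: w).getLast? = some y → inc L y x

/-- The lower bound. `y` = weights on the edges of the incomparability graph.
PROOF. Each layer `C_i` is a nonempty set, not everything (`k ≥ 2`), and `y` between different layers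
is `0` (comparable). So `2 ≤ ∑_{u ∈ C_i} ∑_{v ∉ C_i} y u v = ∑_{u ∈ C_i} ∑_{v ∈ Z} y u v`; sum over
`i` and use symmetry: `2 k ≤ ∑_{v ∈ Z} ∑_u y v u`. -/
def S_LB : Prop :=
  ∀ (V : Type) [DecidableEq V] [Fintype V] (L : V → V → Prop) (y : V → V → ℝ),
    PO L Finset.univ → (∀ i j, y i j = y j i) → (∀ i j, 0 ≤ y i j) →
    (∀ i j, y i j ≠ 0 → inc L i j) →
    (∀ S : Finset V, S.Nonempty → S ≠ Finset.univ →
      2 ≤ ∑ i ∈ S, ∑ j ∈ Finset.univ \ S, y i j) →
    ∀ (h : V → ℕ) (k : ℕ), Lay L Finset.univ h k → 2 ≤ k →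
      (k : ℝ) ≤ ∑ v ∈ Z Finset.univ h, (1 / 2 : ℝ) * ∑ j, y v j

/-- Blow-up.
PROOF. Given a layering `h` of the blow-up, all copies of `v` with `h ≠ 0` are in the same layer; `H v` =
the largest value of `h` on the copies of `v`; if `H v = 0` all `m v` copies are in `Z`. -/
def S_BU : Prop :=
  ∀ (V : Type) [DecidableEq V] [Fintype V] (L : V → V → Prop) (m : V → ℕ),
    PO L Finset.univ → (∀ v, 1 ≤ m v) →
    (∀ (h : V → ℕ) (k : ℕ), Lay L Finset.univ h k → 2 ≤ k → k ≤ ∑ v ∈ Z Finset.univ h, m v) →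
    Tg (fun i j : (Σ v : V, Fin (m v)) => L i.1 j.1) Finset.univ 0

end Pool.Agent.L7h35.CC
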