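import Pool.Agent.L7h35.CC.Stm

/-!
# The zigzag
-/

set_option autoImplicit false

namespace Pool.Agent.L7h35.CC

variable {V : Type}

lemma mem_Z {W : Finset V} {h : V → ℕ} {v : V} : v ∈ Z W h ↔ v ∈ W ∧ h v = 0 := by
  unfold Z
  rw [Finset.mem_filter]

section merge

variable [DecidableEq V] {L : V → V → Prop} {W : Finset V} {g : V → ℕ} {l j ρ : ℕ}
  {P : Finset V}

lemma mg_mem {v : V} (hv : v ∈ P) : mg g P j ρ v = j := if_pos hv

lemma mg_lt {v : V} (hv : v ∉ P) (h : g v < j) : mg g P j ρ v = g v := by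
  unfold mg
  rw [if_neg hv, if_pos h]

lemma mg_mid {v : V} (h : j ≤ g v) (h' : g v ≤ ρ) : mg g P j ρ v = j := by
  unfold mg
  split_ifs <;> omega

lemma mg_gt {v : V} (hv : v ∉ P) (hjρ : j ≤ ρ) (h : ρ < g v) :
    mg g P j ρ v = g v - (ρ - j) := by
  unfold mg
  rw [if_neg hv, if_neg (by omega), if_neg (by omega)]

theorem s_mg : S_MG := by
  intro V _ L W g l j ρ P hP hg hj hjρ hρl hPZ hlo hhi
  have hP0 : ∀ v ∈ P, v ∈ W ∧ g v = 0 := fun v hv => mem_Z.1 (hPZ hv)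
  refine ⟨⟨?_, ?_, ?_⟩, ?_⟩
  · intro v hv
    have h1 := hg.le v hv
    unfold mg
    split_ifs <;> omega
  · intro i hi hi'
    by_cases h1 : i ≤ j
    · by_cases h2 : i < j
      · obtain ⟨v, hv, hv'⟩ := hg.ne i hi (by omega)
        refine ⟨v, hv, ?_⟩
        rw [mg_lt (fun h => by have := (hP0 v h).2; omega) (by omega), hv']
      · obtain ⟨v, hv, hv'⟩ := hg.ne j hj (by omega)
        refine ⟨v, hv, ?_⟩
        rw [mg_mid (by omega) (by omega)]
        omega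
    · obtain ⟨v, hv, hv'⟩ := hg.ne (i + (ρ - j)) (by omega) (by omega)
      refine ⟨v, hv, ?_⟩
      rw [mg_gt (fun h => by have := (hP0 v h).2; omega) hjρ (by omega), hv']
      omega
  · intro u hu v hv h0 h1
    by_cases huP : u ∈ P
    · rw [mg_mem huP] at h1
      have hvP : v ∉ P := fun h => by rw [mg_mem h] at h1; omega
      apply hhi u huP v hv
      by_contra hcon
      unfold mg at h1
      rw [if_neg hvP] at h1
      split_ifs at h1 <;> omega
    · have hgu : 0 < g u := by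
        by_contra hcon
        have h2 : g u = 0 := by omega
        rw [mg_lt huP (by omega), h2] at h0
        exact absurd h0 (lt_irrefl _)
      by_cases hvP : v ∈ P
      · rw [mg_mem hvP] at h1
        refine hlo v hvP u hu hgu ?_
        by_contra hcon
        unfold mg at h1
        rw [if_neg huP, if_neg hcon] at h1
        split_ifs at h1 <;> omega
      · refine hg.lt u hu v hv hgu ?_
        unfold mg at h1
        rw [if_neg huP, if_neg hvP] at h1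
        split_ifs at h1 <;> omega
  · ext v
    rw [mem_Z, Finset.mem_sdiff, mem_Z]
    constructor
    · rintro ⟨h1, h2⟩
      have hvP : v ∉ P := fun h => by rw [mg_mem h] at h2; omega
      refine ⟨⟨h1, ?_⟩, hvP⟩
      unfold mg at h2
      rw [if_neg hvP] at h2
      split_ifs at h2 <;> omega
    · rintro ⟨⟨h1, h2⟩, hvP⟩
      refine ⟨h1, ?_⟩
      rw [mg_lt hvP (by omega), h2]

end merge

theorem s_ct : S_CT := by
  intro V _ L W h k i α P hh hi hα hP
  have h1 : (Finset.Ioo i α) ⊆ (P.filter fun v => ¬ h v ≤ i).image h := by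
    intro t ht
    rw [Finset.mem_Ioo] at ht
    obtain ⟨v, hv, hv'⟩ := hh.ne t (by omega) (by omega)
    rw [Finset.mem_image]
    refine ⟨v, ?_, hv'⟩
    rw [Finset.mem_filter]
    exact ⟨hP v hv (by omega) (by omega), by omega⟩
  have h2 := (Finset.card_le_card h1).trans Finset.card_image_le
  rw [Nat.card_Ioo] at h2
  have h3 := Finset.card_filter_add_card_filter_not (s := P) (fun v => h v ≤ i)
  omega

/-- the largest `α` -/
lemma exists_alpha {W : Finset V} (h g : V → ℕ) (i k : ℕ) (hik : i < k) :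
    ∃ α, i < α ∧ α ≤ k + 1 ∧ (∀ v ∈ W, i < h v → h v < α → g v = 0) ∧
      ∀ β, i < β → β ≤ k + 1 → (∀ v ∈ W, i < h v → h v < β → g v = 0) → β ≤ α := by
  classical
  have hne : ((Finset.Icc (i + 1) (k + 1)).filter
      fun β => ∀ v ∈ W, i < h v → h v < β → g v = 0).Nonempty := by
    refine ⟨i + 1, ?_⟩
    rw [Finset.mem_filter, Finset.mem_Icc]
    exact ⟨⟨le_rfl, by omega⟩, fun v _ h1 h2 => by omega⟩
  obtain ⟨α, hα, hmax⟩ := Finset.exists_max_image _ id hne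
  rw [Finset.mem_filter, Finset.mem_Icc] at hα
  refine ⟨α, by omega, hα.1.2, hα.2, ?_⟩
  intro β h1 h2 h3
  exact hmax β (Finset.mem_filter.2 ⟨Finset.mem_Icc.2 ⟨h1, h2⟩, h3⟩)

lemma exists_rho {L : V → V → Prop} {W : Finset V} {h g : V → ℕ} {k l i j α β : ℕ}
    {P : Finset V} (hh : Lay L W h k) (hg : Lay L W g l) (hP : PO L W)
    (hjl : j < l)
    (h1 : ∀ y ∈ W, 1 ≤ h y → h y ≤ i → g y ≤ j)
    (hα : ∀ v ∈ W, i < h v → h v < α → g v = 0)
    (hβ : ∀ β', j < β' → β' ≤ l + 1 → (∀ v ∈ W, j < g v → g v < β' → h v = 0) → β' ≤ β)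
    (hPm : ∀ w ∈ P, w ∈ W ∧ 1 ≤ h w ∧ h w < α) (hjβ : j < β) :
    ∃ ρ, j ≤ ρ ∧ ρ ≤ l ∧ ρ ≤ β ∧ (∀ w ∈ P, ∀ y ∈ W, ρ < g y → L w y) ∧
      (j < ρ → ∃ y ∈ W, g y = ρ ∧ h y = 0) := by
  classical
  have hex : ∃ ρ, j ≤ ρ ∧ ∀ w ∈ P, ∀ y ∈ W, ρ < g y → L w y :=
    ⟨l, hjl.le, fun w _ y hy h2 => absurd (hg.le y hy) (not_le.2 h2)⟩
  set ρ := Nat.find hex with hρ
  have hρs := Nat.find_spec hex
  rw [← hρ] at hρs
  have hρl : ρ ≤ l := Nat.find_min' hex
    ⟨hjl.le, fun w _ y hy h2 => absurd (hg.le y hy) (not_le.2 h2)⟩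
  -- the claim
  have claim : ∀ y ∈ W, j < g y → ∀ w ∈ P, ∀ y2 ∈ W, ¬ L w y2 → (y = y2 ∨ L y y2) → h y = 0 := by
    intro y hy hgy w hw y2 hy2 hn hor
    by_contra hcon
    obtain ⟨hwW, hw1, hwα⟩ := hPm w hw
    have h2 : i < h y := by
      by_contra h3
      have := h1 y hy (by omega) (by omega)
      omega
    have h4 : α ≤ h y := by
      by_contra h3
      have := hα y hy h2 (by omega)
      omega
    have h5 : L w y := hh.lt w hwW y hy hw1 (by omega)
    rcases hor with rfl | h6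
    · exact hn h5
    · exact hn (hP.tr w hwW y hy y2 hy2 h5 h6)
  by_cases hjρ : j < ρ
  · have hmin := Nat.find_min hex (m := ρ - 1) (by omega)
    have h2 : ∃ w ∈ P, ∃ y2 ∈ W, g y2 = ρ ∧ ¬ L w y2 := by
      by_contra hcon
      push Not at hcon
      apply hmin
      refine ⟨by omega, fun w hw y hy hlt => ?_⟩
      by_cases h3 : g y = ρ
      · exact hcon w hw y hy h3
      · exact hρs.2 w hw y hy (by omega)
    obtain ⟨w, hw, y2, hy2, hgy2, hn⟩ := h2
    refine ⟨ρ, hρs.1, hρl, ?_, hρs.2, fun _ => ⟨y2, hy2, hgy2,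
      claim y2 hy2 (by omega) w hw y2 hy2 hn (Or.inl rfl)⟩⟩
    refine hβ ρ hjρ (by omega) ?_
    intro v hv hv1 hv2
    exact claim v hv hv1 w hw y2 hy2 hn (Or.inr (hg.lt v hv y2 hy2 (by omega) (by omega)))
  · exact ⟨ρ, hρs.1, hρl, by omega, hρs.2, fun h => absurd h hjρ⟩

theorem s_sk : S_SK := by
  classical
  intro V _ L W h g k l i j hP hh hg hi hik hj hjl h1 h2
  obtain ⟨α, hα1, hα2, hα3, hα4⟩ := exists_alpha (W := W) h g i k hik
  obtain ⟨β, hβ1, hβ2, hβ3, hβ4⟩ := exists_alpha (W := W) g h j l hjl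
  set P := W.filter fun v => g v = 0 ∧ 1 ≤ h v ∧ h v < α ∧
    ∀ u ∈ W, 1 ≤ g u → g u < j → L u v with hPd
  set P' := W.filter fun v => h v = 0 ∧ 1 ≤ g v ∧ g v < β ∧
    ∀ u ∈ W, 1 ≤ h u → h u < i → L u v with hPd'
  obtain ⟨ρ, a1, a2, a3, a4, a5⟩ := exists_rho (P := P) hh hg hP hjl h1 hα3 hβ4
    (by
      intro w hw
      rw [hPd, Finset.mem_filter] at hw
      exact ⟨hw.1, hw.2.2.1, hw.2.2.2.1⟩) hβ1
  obtain ⟨ρ', b1, b2, b3, b4, b5⟩ := exists_rho (P := P') hg hh hP hik h2 hβ3 hα4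
    (by
      intro w hw
      rw [hPd', Finset.mem_filter] at hw
      exact ⟨hw.1, hw.2.2.1, hw.2.2.2.1⟩) hα1
  refine ⟨α, β, ρ, ρ', P, P', hα1, hα2, hβ1, hβ2, hα3, hβ3, a1, a2, b1, b2, a3, b3, ?_, ?_, a4, b4,
    a5, b5⟩
  · intro v
    rw [hPd, Finset.mem_filter]
  · intro v
    rw [hPd', Finset.mem_filter]

end Pool.Agent.L7h35.CC
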